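import Mathlib

/-!
# The weak Lipschitz Baumgartner axioms imply `add(N) > ℵ₁`

We prove in ZFC that each of `BA_Lip(ω^ω)` and `BA_Lip(2^ω)` implies `add(N) > ℵ₁`.

Outline of the proof.

* `BA_Lip(ω^ω)` implies `BA_Lip(2^ω)` (`BALip_bool`), so we may assume `BA_Lip(2^ω)`.
* `BA_Lip(2^ω)` implies that `ℵ₁` many functions `ω → ω` have a common bound modulo finite
  (`bounded_of_BALip`).
* Let `N α` (`α < ω₁`) be null sets, and suppose that their union is not null. We code the null set
  `⋃ β ≤ α, N β` by a sequence `x α : ω → ω` of finite unions of rational intervals, the `n`-th of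
  them being of measure at most `ε n`. By the second item we may assume that all `x α` are bounded
  by a function `g`, and so we may code `x α` by a point `y α` of `2^ω` in such a way that `x α n` is
  determined by `y α` below `L (n + 1)`, where `L` depends on `g` only. Let `B` be the set of all
  finite modifications of the `y α`. Let `A` be the set of all finite modifications of `ℵ₁` many
  points which vanish outside of the sparse set `{L n : n < ω}`. Both sets are `ℵ₁`-dense. Let `f` be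
  a Lipschitz function which is injective on `A` and maps `A` into `B`. There is a stem `u` such that
  the set of all `f a`, where `a ∈ A` has the stem `u`, is uncountable. It meets unboundedly many
  of the classes of the `y α`. On the other hand, there are at most `2 ^ (n + 1)` possibilities
  for the restriction of `f a` to `L (n + 1)`. Thus the union of the `N α` is covered by the
  limit superior of sets of measure at most `2 ^ (n + 1) * ε n`, and this is a null set.
-/

set_option autoImplicit false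

open Set Cardinal MeasureTheory

namespace Pool.Agent.Results.MP_84ba36_lc.LipNullAdditivity

/-- `A ⊆ Z` is `ℵ₁`-dense: `|A ∩ U| = ℵ₁` for every nonempty open set `U`. -/
def AlephOneDense {Z : Type} [TopologicalSpace Z] (A : Set Z) : Prop :=
  ∀ U : Set Z, IsOpen U → U.Nonempty → #(A ∩ U : Set Z) = ℵ₁

/-- `f` is Lipschitz with constant `1`: `f x` and `f y` agree below `k` if `x` and `y` do. -/
def IsLip {α : Type} (f : (ℕ → α) → ℕ → α) : Prop :=
  ∀ (k : ℕ) (x y : ℕ → α), (∀ i < k, x i = y i) → ∀ i < k, f x i = f y i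

/-- The axiom `BA_Lip(Z)` for the space `Z` of all functions from `ω` to the discrete space `α`:
for all `ℵ₁`-dense `A, B ⊆ Z` there is a Lipschitz function `f : Z → Z` such that the restriction of
`f` to `A` is injective and `f[A] ⊆ B`. -/
def BALip (α : Type) [TopologicalSpace α] : Prop :=
  ∀ A B : Set (ℕ → α), AlephOneDense A → AlephOneDense B →
    ∃ f : (ℕ → α) → ℕ → α, IsLip f ∧ InjOn f A ∧ f '' A ⊆ B

/-- `add(N)`: the least cardinality of a family of Lebesgue null sets of reals whose union is not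
null. -/
noncomputable def addN : Cardinal.{0} :=
  sInf {κ | ∃ F : Set (Set ℝ), #F = κ ∧ (∀ N ∈ F, volume N = 0) ∧ volume (⋃₀ F) ≠ 0}

/-! ### Injective choice functions -/

theorem exists_injective_choice {ι Z : Type} (S : ι → Set Z) (h : ∀ i, #ι ≤ #(S i)) :
    ∃ π : ι → Z, Function.Injective π ∧ ∀ i, π i ∈ S i := by
  classical
  obtain ⟨e⟩ : Nonempty (ι ≃ (#ι).ord.ToType) := by
    rw [← Cardinal.eq, mk_ord_toType]
  have hlt : ∀ i : (#ι).ord.ToType, #(Iio i) < #ι := fun i => by
    have h1 := mk_Iio_lt i (by simp)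
    rwa [mk_ord_toType] at h1
  have key : ∀ (i : (#ι).ord.ToType) (g : (j : (#ι).ord.ToType) → j < i → Z),
      ∃ z ∈ S (e.symm i), ∀ (j : (#ι).ord.ToType) (hj : j < i), g j hj ≠ z := by
    intro i g
    by_contra hcon
    push Not at hcon
    have h1 : S (e.symm i) ⊆ range fun j : Iio i => g j.1 j.2 := by
      intro z hz
      obtain ⟨j, hj, hjz⟩ := hcon z hz
      exact ⟨⟨j, hj⟩, hjz⟩
    have h2 : #(S (e.symm i)) ≤ #(Iio i) := (mk_le_mk_of_subset h1).trans mk_range_le
    exact absurd ((h _).trans h2) (not_le.2 (hlt i))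
  choose c hc hc' using key
  let wf : WellFounded fun a b : (#ι).ord.ToType => a < b := wellFounded_lt
  let π : (#ι).ord.ToType → Z := wf.fix fun i g => c i g
  have hπ : ∀ i, π i = c i fun j _ => π j := fun i => wf.fix_eq _ i
  have hinj : Function.Injective π := by
    have aux : ∀ i j, j < i → π j ≠ π i := by
      intro i j hji h
      have h2 := hc' i (fun j _ => π j) j hji
      rw [← hπ i] at h2
      exact h2 h
    intro i j hij
    rcases lt_trichotomy i j with h | h | h
    · exact absurd hij (aux j i h)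
    · exact h
    · exact absurd hij.symm (aux i j h)
  refine ⟨fun i => π (e i), hinj.comp e.injective, fun i => ?_⟩
  have h1 := hc (e i) fun j _ => π j
  rw [← hπ (e i), e.symm_apply_apply] at h1
  exact h1

/-! ### Finite modifications -/

/-- the well-ordered set `ω₁` -/
abbrev W : Type := (ℵ₁ : Cardinal.{0}).ord.ToType

theorem mk_W : #W = ℵ₁ := mk_ord_toType _

theorem countable_Iio (δ : W) : (Iio δ).Countable := by
  rw [← le_aleph0_iff_set_countable, ← Order.lt_succ_iff, succ_aleph0]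
  have h1 := mk_Iio_lt δ (by simp)
  rwa [mk_ord_toType] at h1

theorem countable_Iic (δ : W) : (Iic δ).Countable := by
  rw [← Iio_insert]
  exact (countable_Iio δ).insert δ

theorem not_countable_iff {X : Type} (A : Set X) : ¬ A.Countable ↔ ℵ₁ ≤ #A := by
  rw [← le_aleph0_iff_set_countable, not_le, ← succ_aleph0, Order.succ_le_iff]

theorem not_countable_univ_W : ¬ (univ : Set W).Countable := by
  rw [not_countable_iff, mk_univ, mk_W]

/-- `x` and `y` are equal from some point on -/
def TailEq {α : Type} (x y : ℕ → α) : Prop := ∃ m, ∀ i, m ≤ i → x i = y i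

theorem TailEq.symm {α : Type} {x y : ℕ → α} (h : TailEq x y) : TailEq y x := by
  obtain ⟨m, hm⟩ := h
  exact ⟨m, fun i hi => (hm i hi).symm⟩

theorem TailEq.refl {α : Type} (x : ℕ → α) : TailEq x x := ⟨0, fun _ _ => rfl⟩

theorem TailEq.trans {α : Type} {x y z : ℕ → α} (h : TailEq x y) (h' : TailEq y z) :
    TailEq x z := by
  obtain ⟨m, hm⟩ := h
  obtain ⟨n, hn⟩ := h'
  exact ⟨max m n, fun i hi => (hm i ((le_max_left _ _).trans hi)).trans
    (hn i ((le_max_right _ _).trans hi))⟩

/-- replace an initial segment of `x` by the finite sequence `p` -/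
def md {α : Type} (p : List α) (x : ℕ → α) : ℕ → α := fun i =>
  if h : i < p.length then p[i] else x i

theorem md_tailEq {α : Type} (p : List α) (x : ℕ → α) : TailEq (md p x) x :=
  ⟨p.length, fun i hi => by simp [md, not_lt.2 hi]⟩

theorem md_eq {α : Type} {m : ℕ} {x y : ℕ → α} (h : ∀ i, m ≤ i → x i = y i) :
    md ((List.range m).map x) y = x := by
  funext i
  by_cases hi : i < m
  · simp [md, hi]
  · simp [md, hi, h i (not_lt.1 hi)]

/-- all finite modifications of the members of a family -/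
def sat {ι α : Type} (x : ι → ℕ → α) : Set (ℕ → α) := {y | ∃ i, TailEq y (x i)}

theorem sat_eq_range {ι α : Type} (x : ι → ℕ → α) :
    sat x = range fun p : ι × List α => md p.2 (x p.1) := by
  ext y
  constructor
  · rintro ⟨i, m, hm⟩
    exact ⟨(i, (List.range m).map y), md_eq hm⟩
  · rintro ⟨p, rfl⟩
    exact ⟨p.1, md_tailEq _ _⟩

theorem mk_sat_le {ι α : Type} [Countable α] (x : ι → ℕ → α) (h : #ι ≤ ℵ₁) : #(sat x) ≤ ℵ₁ := by
  rw [sat_eq_range]
  refine mk_range_le.trans ?_
  rw [mk_prod, lift_id, lift_id]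
  refine (mul_le_mul' h (mk_le_aleph0 (α := List α))).trans ?_
  exact (mul_aleph0_eq aleph0_lt_aleph_one.le).le

theorem countable_tailEq {α : Type} [Countable α] (x : ℕ → α) : {y | TailEq y x}.Countable := by
  refine (countable_range fun p : List α => md p x).mono ?_
  rintro y ⟨m, hm⟩
  exact ⟨(List.range m).map y, md_eq hm⟩

theorem sat_closed {ι α : Type} (x : ι → ℕ → α) : ∀ y ∈ sat x, ∀ z, TailEq z y → z ∈ sat x := by
  rintro y ⟨i, hi⟩ z hz
  exact ⟨i, hz.trans hi⟩

theorem mem_sat {ι α : Type} (x : ι → ℕ → α) (i : ι) : x i ∈ sat x := ⟨i, TailEq.refl _⟩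

/-- An uncountable subset of `sat x` meets unboundedly many of the classes. -/
theorem unbounded_of_uncountable {α : Type} [Countable α] (x : W → ℕ → α) (S : Set (ℕ → α))
    (hS : S ⊆ sat x) (hS' : ¬ S.Countable) (γ : W) : ∃ β, γ ≤ β ∧ ∃ s ∈ S, TailEq s (x β) := by
  by_contra hcon
  push Not at hcon
  apply hS'
  refine ((countable_Iio γ).biUnion fun β _ => countable_tailEq (x β)).mono ?_
  intro s hs
  obtain ⟨β, hβ⟩ := hS hs
  rw [mem_iUnion₂]
  refine ⟨β, ?_, hβ⟩
  rw [mem_Iio]
  by_contra hlt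
  exact hcon β (not_lt.1 hlt) s hs hβ

section

variable {α : Type} [TopologicalSpace α] [DiscreteTopology α]

theorem isOpen_agree (x : ℕ → α) (k : ℕ) : IsOpen {y : ℕ → α | ∀ i < k, y i = x i} := by
  have h1 : {y : ℕ → α | ∀ i < k, y i = x i} =
      ⋂ i ∈ Finset.range k, (fun y : ℕ → α => y i) ⁻¹' {x i} := by
    ext y
    simp
  rw [h1]
  refine isOpen_biInter_finset fun i _ => ?_
  exact (isOpen_discrete _).preimage (continuous_apply i)

omit [DiscreteTopology α] in
theorem exists_agree_subset {U : Set (ℕ → α)} (hU : IsOpen U) {x : ℕ → α} (hx : x ∈ U) :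
    ∃ m : ℕ, ∀ y : ℕ → α, (∀ i < m, y i = x i) → y ∈ U := by
  obtain ⟨E, v, hv, hs⟩ := isOpen_pi_iff.1 hU x hx
  obtain ⟨N, hN⟩ : ∃ N, ∀ i ∈ E, i < N :=
    ⟨E.sup id + 1, fun i hi => Nat.lt_succ_of_le (Finset.le_sup (f := id) hi)⟩
  refine ⟨N, fun y hy => hs fun i hi => ?_⟩
  rw [hy i (hN i hi)]
  exact (hv i hi).2

omit [DiscreteTopology α] in
/-- A set closed under finite modifications which is of size at most `ℵ₁` and uncountable is
`ℵ₁`-dense. -/
theorem dense_of_closed [Countable α] {X : Set (ℕ → α)} (h1 : #X ≤ ℵ₁) (h2 : ¬ X.Countable)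
    (h3 : ∀ x ∈ X, ∀ y, TailEq y x → y ∈ X) : AlephOneDense X := by
  intro U hU hne
  refine le_antisymm ((mk_le_mk_of_subset inter_subset_left).trans h1) ?_
  rw [← not_countable_iff]
  intro hc
  apply h2
  obtain ⟨x₀, hx₀⟩ := hne
  obtain ⟨m, hm⟩ := exists_agree_subset hU hx₀
  refine (((countable_univ (α := List α)).prod hc).image fun p => md p.1 p.2).mono ?_
  intro y hy
  refine ⟨((List.range m).map y, fun i => if i < m then x₀ i else y i),
    ⟨mem_univ _, h3 y hy _ ⟨m, fun i hi => by simp [not_lt.2 hi]⟩, hm _ fun i hi => by simp [hi]⟩,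
    md_eq fun i hi => by simp [not_lt.2 hi]⟩

theorem IsLip.continuous {f : (ℕ → α) → ℕ → α} (hf : IsLip f) : Continuous f := by
  refine continuous_pi fun i => ?_
  refine IsLocallyConstant.continuous ?_
  rw [IsLocallyConstant.iff_exists_open]
  intro x
  exact ⟨_, isOpen_agree x (i + 1), fun _ _ => rfl, fun y hy => hf (i + 1) y x hy i
    (Nat.lt_succ_self i)⟩

end

/-! ### From Baire space to Cantor space -/

/-- the parity map -/
def par (n : ℕ) : Bool := decide (n % 2 = 1)

theorem par_toNat (b : Bool) : par b.toNat = b := by cases b <;> rfl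

theorem BALip_bool (h : BALip ℕ) : BALip Bool := by
  classical
  intro A B hA hB
  -- the set `A'`
  have hA1 : #A = ℵ₁ := by
    have := hA univ isOpen_univ ⟨fun _ => false, mem_univ _⟩
    rwa [inter_univ] at this
  let xA : A → ℕ → ℕ := fun a i => (a.1 i).toNat
  have hxA : Function.Injective xA := by
    intro a b hab
    refine Subtype.ext (funext fun i => ?_)
    have := congrFun hab i
    rw [← par_toNat (a.1 i), ← par_toNat (b.1 i)]
    exact congrArg par this
  have hA' : AlephOneDense (sat xA) := by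
    refine dense_of_closed (mk_sat_le xA hA1.le) ?_ (sat_closed xA)
    rw [not_countable_iff, ← hA1]
    exact mk_le_of_injective (f := fun a : A => (⟨xA a, mem_sat xA a⟩ : sat xA)) fun a b hab =>
      hxA (congrArg Subtype.val hab)
  -- the set `B'`
  obtain ⟨π, hπ, hπ'⟩ := exists_injective_choice (ι := List ℕ × W) (Z := ℕ → Bool)
    (fun p => B ∩ {y | ∀ i < p.1.length, y i = par (p.1.getD i 0)}) fun p => by
      have h1 := hB {y | ∀ i < p.1.length, y i = par (p.1.getD i 0)}
        (isOpen_agree (fun i => par (p.1.getD i 0)) p.1.length)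
        ⟨fun i => par (p.1.getD i 0), fun _ _ => rfl⟩
      rw [h1, mk_prod, lift_id, lift_id, mk_W]
      exact (mul_le_mul' (mk_le_aleph0 (α := List ℕ)) le_rfl).trans
        (aleph0_mul_eq aleph0_lt_aleph_one.le).le
  let lft : List ℕ × W → ℕ → ℕ := fun p i =>
    if i < p.1.length then p.1.getD i 0 else (π p i).toNat
  have hlft : ∀ p, (fun i => par (lft p i)) = π p := by
    intro p
    funext i
    by_cases hi : i < p.1.length
    · have := (hπ' p).2 i hi
      simp only [lft, hi, if_true]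
      exact this.symm
    · simp only [lft, hi, if_false, par_toNat]
  have hB' : AlephOneDense (range lft) := by
    intro U hU hne
    refine le_antisymm ?_ ?_
    · refine (mk_le_mk_of_subset inter_subset_left).trans (mk_range_le.trans ?_)
      rw [mk_prod, lift_id, lift_id, mk_W]
      exact (mul_le_mul' (mk_le_aleph0 (α := List ℕ)) le_rfl).trans
        (aleph0_mul_eq aleph0_lt_aleph_one.le).le
    · obtain ⟨x₀, hx₀⟩ := hne
      obtain ⟨m, hm⟩ := exists_agree_subset hU hx₀
      have hmem : ∀ δ : W, lft ((List.range m).map x₀, δ) ∈ U := by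
        intro δ
        apply hm
        intro i hi
        simp [lft, hi]
      rw [← mk_W]
      refine mk_le_of_injective (f := fun δ : W => (⟨lft ((List.range m).map x₀, δ),
        ⟨_, rfl⟩, hmem δ⟩ : (range lft ∩ U : Set (ℕ → ℕ)))) ?_
      intro δ ε hδ
      have h1 : lft ((List.range m).map x₀, δ) = lft ((List.range m).map x₀, ε) :=
        congrArg Subtype.val hδ
      have h2 : π ((List.range m).map x₀, δ) = π ((List.range m).map x₀, ε) := by
        rw [← hlft, ← hlft, h1]
      exact congrArg Prod.snd (hπ h2)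
  obtain ⟨f, hf1, hf2, hf3⟩ := h _ _ hA' hB'
  have hmemA : ∀ a ∈ A, (fun i => (a i).toNat) ∈ sat xA := fun a ha => mem_sat xA ⟨a, ha⟩
  refine ⟨fun x i => par (f (fun j => (x j).toNat) i), ?_, ?_, ?_⟩
  · intro k x y hxy i hi
    have := hf1 k (fun j => (x j).toNat) (fun j => (y j).toNat) (fun j hj => by rw [hxy j hj]) i hi
    simp only [this]
  · intro a ha b hb hab
    obtain ⟨p, hp⟩ := hf3 (mem_image_of_mem f (hmemA a ha))
    obtain ⟨q, hq⟩ := hf3 (mem_image_of_mem f (hmemA b hb))
    have h1 : π p = π q := by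
      rw [← hlft p, ← hlft q]
      simp only [← hp, ← hq] at hab
      exact hab
    have h2 : p = q := hπ h1
    have h3 : f (fun i => (a i).toNat) = f (fun i => (b i).toNat) := by rw [← hp, ← hq, h2]
    have h4 := hf2 (hmemA a ha) (hmemA b hb) h3
    funext i
    have h5 := congrFun h4 i
    rw [← par_toNat (a i), ← par_toNat (b i)]
    exact congrArg par h5
  · rintro _ ⟨a, ha, rfl⟩
    obtain ⟨p, hp⟩ := hf3 (mem_image_of_mem f (hmemA a ha))
    have h1 : (fun i => par (f (fun j => (a j).toNat) i)) = π p := by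
      rw [← hlft p]
      simp only [← hp]
    simp only [h1]
    exact (hπ' p).1

/-! ### Boundedness -/

/-- A countable set of functions is bounded by a strictly increasing function. -/
theorem bdd_countable (S : Set (ℕ → ℕ)) (hS : S.Countable) :
    ∃ g : ℕ → ℕ, StrictMono g ∧ ∀ h ∈ S, ∃ m, ∀ n, m ≤ n → h n ≤ g n := by
  obtain ⟨e, he⟩ := Set.countable_iff_exists_subset_range.1 hS
  refine ⟨fun n => n + ∑ i ∈ Finset.range (n + 1), ∑ j ∈ Finset.range (n + 1), e i j, ?_, ?_⟩
  · refine strictMono_nat_of_lt_succ fun n => ?_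
    have h1 : ∑ i ∈ Finset.range (n + 1), ∑ j ∈ Finset.range (n + 1), e i j ≤
        ∑ i ∈ Finset.range (n + 1 + 1), ∑ j ∈ Finset.range (n + 1 + 1), e i j := by
      refine (Finset.sum_le_sum fun i _ => ?_).trans
        (Finset.sum_le_sum_of_subset (Finset.range_mono (Nat.le_succ _)))
      exact Finset.sum_le_sum_of_subset (Finset.range_mono (Nat.le_succ _))
    show n + _ < n + 1 + _
    omega
  · intro h hh
    obtain ⟨i, hi⟩ := he hh
    refine ⟨i, fun n hn => ?_⟩
    have h1 : e i n ≤ ∑ j ∈ Finset.range (n + 1), e i j :=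
      Finset.single_le_sum (f := fun j => e i j) (fun _ _ => Nat.zero_le _)
        (Finset.mem_range.2 (Nat.lt_succ_self n))
    have h2 : ∑ j ∈ Finset.range (n + 1), e i j ≤
        ∑ i ∈ Finset.range (n + 1), ∑ j ∈ Finset.range (n + 1), e i j :=
      Finset.single_le_sum (f := fun i => ∑ j ∈ Finset.range (n + 1), e i j)
        (fun _ _ => Nat.zero_le _) (Finset.mem_range.2 (Nat.lt_succ_of_le hn))
    rw [← hi]
    show e i n ≤ n + _
    omega

/-- the number of ones of `x` below `m` -/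
def cnt (x : ℕ → Bool) (m : ℕ) : ℕ := ((Finset.range m).filter fun i => x i = true).card

theorem cnt_mono (x : ℕ → Bool) : Monotone (cnt x) := fun _ _ h =>
  Finset.card_le_card (Finset.filter_subset_filter _ (Finset.range_mono h))

theorem cnt_congr {x y : ℕ → Bool} {m : ℕ} (h : ∀ i < m, x i = y i) : cnt x m = cnt y m := by
  unfold cnt
  congr 1
  refine Finset.filter_congr fun i hi => ?_
  rw [h i (Finset.mem_range.1 hi)]

theorem cnt_tail {x y : ℕ → Bool} {m : ℕ} (h : ∀ i, m ≤ i → x i = y i) (M : ℕ) :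
    cnt x M ≤ cnt y M + m := by
  unfold cnt
  refine (Finset.card_le_card (t := ((Finset.range M).filter fun i => y i = true) ∪
    Finset.range m) ?_).trans ((Finset.card_union_le _ _).trans (by simp))
  intro i hi
  rw [Finset.mem_filter] at hi
  rw [Finset.mem_union, Finset.mem_filter]
  by_cases him : i < m
  · exact Or.inr (Finset.mem_range.2 him)
  · exact Or.inl ⟨hi.1, by rw [← h i (not_lt.1 him)]; exact hi.2⟩

theorem exists_cnt {x : ℕ → Bool} (h : ∀ m, ∃ i, m ≤ i ∧ x i = true) (n : ℕ) :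
    ∃ M, n ≤ cnt x M := by
  induction n with
  | zero => exact ⟨0, Nat.zero_le _⟩
  | succ n ih =>
    obtain ⟨M, hM⟩ := ih
    obtain ⟨i, hi, hxi⟩ := h M
    refine ⟨i + 1, hM.trans_lt ((cnt_mono x hi).trans_lt ?_)⟩
    unfold cnt
    rw [Finset.range_add_one, Finset.filter_insert, if_pos hxi, Finset.card_insert_of_notMem]
    · exact Nat.lt_succ_self _
    · simp

/-- the characteristic function of the range of `g` -/
noncomputable def code (g : ℕ → ℕ) : ℕ → Bool := by
  classical
  exact fun i => decide (∃ k, i = g k)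

theorem code_eq_true {g : ℕ → ℕ} {i : ℕ} : code g i = true ↔ ∃ k, i = g k := by
  simp [code]

theorem cnt_code_le {g : ℕ → ℕ} (hg : StrictMono g) {n M : ℕ} (h : M ≤ g n) :
    cnt (code g) M ≤ n := by
  unfold cnt
  refine (Finset.card_le_card (t := (Finset.range n).image g) ?_).trans
    (Finset.card_image_le.trans (by simp))
  intro i hi
  rw [Finset.mem_filter, code_eq_true, Finset.mem_range] at hi
  obtain ⟨hi, k, rfl⟩ := hi
  exact Finset.mem_image_of_mem g (Finset.mem_range.2 (hg.lt_iff_lt.1 (hi.trans_le h)))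

theorem code_inf {g : ℕ → ℕ} (hg : StrictMono g) (m : ℕ) : ∃ i, m ≤ i ∧ code g i = true :=
  ⟨g m, hg.id_le m, code_eq_true.2 ⟨m, rfl⟩⟩

/-- The key property of a Lipschitz function which maps every sequence with finitely many ones to
a sequence with infinitely many ones. -/
theorem exists_bound {f : (ℕ → Bool) → ℕ → Bool} (hf : IsLip f)
    (hq : ∀ q, TailEq q (fun _ => false) → ∀ m, ∃ i, m ≤ i ∧ f q i = true) (k : ℕ) :
    ∃ M, ∀ x, (∀ m, cnt x m ≤ k) → k + 1 ≤ cnt (f x) M := by
  have hcont : ∀ m, Continuous fun x : ℕ → Bool => cnt x m := by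
    intro m
    refine IsLocallyConstant.continuous ?_
    rw [IsLocallyConstant.iff_exists_open]
    intro x
    exact ⟨_, isOpen_agree x m, fun _ _ => rfl, fun y hy => cnt_congr hy⟩
  have hK : IsCompact {x : ℕ → Bool | ∀ m, cnt x m ≤ k} := by
    refine IsClosed.isCompact ?_
    rw [ofPred_forall]
    refine isClosed_iInter fun m => ?_
    exact (isClosed_discrete (Iic k)).preimage (hcont m)
  have hopen : ∀ M, IsOpen {x : ℕ → Bool | k + 1 ≤ cnt (f x) M} := fun M =>
    (isOpen_discrete (Ici (k + 1))).preimage ((hcont M).comp hf.continuous)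
  have hcov : {x : ℕ → Bool | ∀ m, cnt x m ≤ k} ⊆ ⋃ M, {x : ℕ → Bool | k + 1 ≤ cnt (f x) M} := by
    intro x hx
    rw [mem_iUnion]
    refine exists_cnt (hq x ?_) (k + 1)
    by_contra hcon
    have h1 : ∀ m, ∃ i, m ≤ i ∧ x i = true := by
      intro m
      by_contra hc
      push Not at hc
      exact hcon ⟨m, fun i hi => by simpa using hc i hi⟩
    obtain ⟨M, hM⟩ := exists_cnt h1 (k + 1)
    exact absurd (hx M) (not_le.2 hM)
  obtain ⟨M, hM⟩ := hK.elim_directed_cover _ hopen hcov
    (directed_of_isDirected_le fun a b hab x hx => le_trans hx (cnt_mono (f x) hab))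
  exact ⟨M, fun x hx => hM hx⟩

/-- `BA_Lip(2^ω)` implies `𝔟 > ℵ₁`. -/
theorem bounded_of_BALip (hBA : BALip Bool) (h : W → ℕ → ℕ) :
    ∃ g : ℕ → ℕ, ∀ α, ∃ m, ∀ n, m ≤ n → h α n ≤ g n := by
  by_contra hunb
  -- the functions `g α`
  have h1 : ∀ α : W, ∃ g : ℕ → ℕ, StrictMono g ∧ ∀ β, β ≤ α → ∃ m, ∀ n, m ≤ n → h β n ≤ g n := by
    intro α
    obtain ⟨g, hg, hg'⟩ := bdd_countable (h '' Iic α) ((countable_Iic α).image h)
    exact ⟨g, hg, fun β hβ => hg' _ ⟨β, hβ, rfl⟩⟩
  choose g hg hg' using h1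
  let y : W → ℕ → Bool := fun α => code (g α)
  -- a set of members of `sat y` which is uniformly dominated
  have hV : ∀ (S : Set (ℕ → Bool)) (H : ℕ → ℕ), (∀ s ∈ S, ∃ m, ∀ n, m ≤ n → n ≤ cnt s (H n)) →
      (∀ γ : W, ∃ β, γ ≤ β ∧ ∃ s ∈ S, TailEq s (y β)) → False := by
    intro S H hS hS'
    apply hunb
    refine ⟨fun n => H (2 * n + 2), fun γ => ?_⟩
    obtain ⟨β, hβ, s, hs, c, hc⟩ := hS' γ
    obtain ⟨m, hm⟩ := hS s hs
    obtain ⟨m', hm'⟩ := hg' β γ hβ
    refine ⟨max m' (max m c), fun n hn => (hm' n (by omega)).trans ?_⟩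
    by_contra hlt
    rw [not_le] at hlt
    have h2 : cnt (y β) (H (2 * n + 2)) ≤ n := cnt_code_le (hg β) hlt.le
    have h3 := hm (2 * n + 2) (by omega)
    have h4 := cnt_tail hc (H (2 * n + 2))
    have h5 : c ≤ n := by omega
    omega
  -- final segments are uncountable
  have hunc : ∀ γ, ¬ (y '' Ici γ).Countable := by
    intro γ hcount
    have h2 : ∀ s : y '' Ici γ, ∃ U : ℕ → ℕ, ∀ n, n ≤ cnt s.1 (U n) := by
      rintro ⟨_, β, hβ, rfl⟩
      choose U hU using exists_cnt (x := y β) (code_inf (hg β))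
      exact ⟨U, hU⟩
    choose U hU using h2
    have : Countable (y '' Ici γ) := hcount.to_subtype
    obtain ⟨H, -, hH⟩ := bdd_countable (range U) (countable_range U)
    refine hV (y '' Ici γ) H (fun s hs => ?_) fun δ => ?_
    · obtain ⟨m, hm⟩ := hH _ ⟨⟨s, hs⟩, rfl⟩
      exact ⟨m, fun n hn => (hU ⟨s, hs⟩ n).trans (cnt_mono s (hm n hn))⟩
    · exact ⟨max γ δ, le_max_right _ _, y (max γ δ),
        mem_image_of_mem y (mem_Ici.2 (le_max_left γ δ)), TailEq.refl _⟩
  have hne : Nonempty W := by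
    rw [← mk_ne_zero_iff, mk_W]
    exact aleph_pos 1 |>.ne'
  obtain ⟨γ₀⟩ := hne
  -- the sets `A` and `B`
  let z : Option W → ℕ → Bool := fun o => o.elim (fun _ => false) y
  have hyz : sat y ⊆ sat z := fun s ⟨α, hα⟩ => ⟨some α, hα⟩
  have hyc : ¬ (sat y).Countable := fun hc => hunc γ₀ (hc.mono (by
    rintro _ ⟨β, -, rfl⟩
    exact mem_sat y β))
  have hB : AlephOneDense (sat y) := dense_of_closed (mk_sat_le y mk_W.le) hyc (sat_closed y)
  have hOW : #(Option W) ≤ ℵ₁ := by
    rw [mk_option, mk_W]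
    exact (add_one_eq aleph0_lt_aleph_one.le).le
  have hA : AlephOneDense (sat z) :=
    dense_of_closed (mk_sat_le z hOW) (fun hc => hyc (hc.mono hyz)) (sat_closed z)
  obtain ⟨f, hf1, hf2, hf3⟩ := hBA _ _ hA hB
  -- the bound
  have hq : ∀ q, TailEq q (fun _ => false) → ∀ m, ∃ i, m ≤ i ∧ f q i = true := by
    intro q hq m
    obtain ⟨β, c, hc⟩ := hf3 (mem_image_of_mem f (show q ∈ sat z from ⟨none, hq⟩))
    obtain ⟨i, hi, hi'⟩ := code_inf (hg β) (max m c)
    exact ⟨i, (le_max_left _ _).trans hi, (hc i ((le_max_right _ _).trans hi)).trans hi'⟩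
  choose M hM using exists_bound hf1 hq
  -- an index whose function is not bounded by `M`
  obtain ⟨α₀, hα₀⟩ : ∃ α₀, ∀ m, ∃ n, m ≤ n ∧ M n < h α₀ n := by
    by_contra hcon
    push Not at hcon
    exact hunb ⟨M, hcon⟩
  choose D hD1 hD2 using hα₀
  -- the image is uniformly dominated
  refine hV (f '' (y '' Ici α₀)) (fun n => M (D n)) ?_ ?_
  · rintro _ ⟨_, ⟨α, hα, rfl⟩, rfl⟩
    obtain ⟨m, hm⟩ := hg' α α₀ hα
    refine ⟨m, fun n hn => ?_⟩
    have h2 : M (D n) ≤ g α (D n) := (hD2 n).le.trans (hm _ (hn.trans (hD1 n)))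
    have h3 : cnt (y α) (M (D n)) ≤ D n := cnt_code_le (hg α) h2
    have h4 : ∀ i < M (D n), y α i = (fun i => if i < M (D n) then y α i else false) i := by
      intro i hi
      simp [hi]
    have h5 : ∀ m, cnt (fun i => if i < M (D n) then y α i else false) m ≤ D n := by
      intro m
      refine le_trans ?_ h3
      unfold cnt
      refine Finset.card_le_card fun i hi => ?_
      rw [Finset.mem_filter] at hi ⊢
      by_cases him : i < M (D n)
      · exact ⟨Finset.mem_range.2 him, by simpa [him] using hi.2⟩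
      · simp [him] at hi
    have h6 := hM (D n) _ h5
    have h7 : cnt (f (y α)) (M (D n)) =
        cnt (f fun i => if i < M (D n) then y α i else false) (M (D n)) :=
      cnt_congr (hf1 _ _ _ h4)
    have h8 := hD1 n
    show n ≤ cnt (f (y α)) (M (D n))
    omega
  · refine unbounded_of_uncountable y _ ?_ ?_
    · rintro _ ⟨_, ⟨α, hα, rfl⟩, rfl⟩
      exact hf3 (mem_image_of_mem f (hyz (mem_sat y α)))
    · intro hc
      refine hunc α₀ (countable_of_injective_of_countable_image (hf2.mono ?_) hc)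
      rintro _ ⟨α, hα, rfl⟩
      exact hyz (mem_sat y α)

/-! ### Codes for null sets -/

open Filter Topology
open scoped ENNReal

theorem exists_pieces {𝒜 : Set (Set ℝ)} (h𝒜 : IsSetAlgebra 𝒜) {e : ℕ → Set ℝ}
    (he : ∀ n, e n ∈ 𝒜) (heo : ∀ n, IsOpen (e n))
    (heb : ∀ U : Set ℝ, IsOpen U → ∀ r ∈ U, ∃ n, r ∈ e n ∧ e n ⊆ U)
    {U : Set ℝ} (hU : IsOpen U) (hfin : volume U ≠ ∞) (δ : ℕ → ℝ≥0∞) (hδ : ∀ i, δ i ≠ 0)
    (hU0 : volume U ≤ δ 0) :
    ∃ D : ℕ → Set ℝ, (∀ i, D i ∈ 𝒜) ∧ (∀ i, volume (D i) ≤ δ i) ∧ U ⊆ ⋃ i, D i := by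
  classical
  let c : ℕ → Set ℝ := fun i => if e i ⊆ U then e i else ∅
  have hc𝒜 : ∀ i, c i ∈ 𝒜 := by
    intro i
    by_cases h : e i ⊆ U
    · simpa only [c, h, if_true] using he i
    · simpa only [c, h, if_false] using h𝒜.empty_mem
  have hcU : ∀ i, c i ⊆ U := by
    intro i
    by_cases h : e i ⊆ U
    · simpa only [c, h, if_true] using h
    · simp only [c, h, if_false]
      exact empty_subset _
  have hco : ∀ i, IsOpen (c i) := by
    intro i
    by_cases h : e i ⊆ U
    · simpa only [c, h, if_true] using heo i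
    · simp only [c, h, if_false]
      exact isOpen_empty
  let G : ℕ → Set ℝ := fun j => ⋃ i ∈ Finset.range j, c i
  have hG𝒜 : ∀ j, G j ∈ 𝒜 := fun j => h𝒜.biUnion_mem (Finset.range j) fun i _ => hc𝒜 i
  have hGmono : Monotone G := fun a b hab => by
    refine biUnion_subset_biUnion_left ?_
    exact_mod_cast Finset.range_mono hab
  have hGU : ∀ r ∈ U, ∃ n, r ∈ G n := by
    intro r hr
    obtain ⟨n, hn, hn'⟩ := heb U hU r hr
    refine ⟨n + 1, mem_biUnion (x := n) (by simp) ?_⟩
    simpa only [c, hn', if_true] using hn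
  have hGo : ∀ j, IsOpen (G j) := fun j => isOpen_biUnion fun i _ => hco i
  have hlim : Tendsto (fun j => volume (U \ G j)) atTop (𝓝 0) := by
    have h1 := tendsto_measure_iInter_atTop (μ := (volume : Measure ℝ)) (s := fun j => U \ G j)
      (fun j => (hU.measurableSet.diff (hGo j).measurableSet).nullMeasurableSet)
      (fun a b hab => sdiff_subset_sdiff_right (hGmono hab))
      ⟨0, ne_top_of_le_ne_top hfin (measure_mono sdiff_subset)⟩
    have h2 : ⋂ n, U \ G n = ∅ := by
      rw [eq_empty_iff_forall_notMem]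
      intro r hr
      rw [mem_iInter] at hr
      obtain ⟨n, hn⟩ := hGU r (hr 0).1
      exact (hr n).2 hn
    rw [h2, measure_empty] at h1
    exact h1
  have hJ : ∀ i, ∃ j, i ≤ j ∧ volume (U \ G j) ≤ δ i := by
    intro i
    have h1 : ∀ᶠ j in atTop, volume (U \ G j) < δ i :=
      hlim.eventually_lt_const (pos_iff_ne_zero.2 (hδ i))
    obtain ⟨j, hj1, hj2⟩ := (h1.and (eventually_ge_atTop i)).exists
    exact ⟨j, hj2, hj1.le⟩
  choose J hJ1 hJ2 using hJ
  let F : ℕ → Set ℝ := fun i => if i = 0 then ∅ else G (J i)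
  have hF𝒜 : ∀ i, F i ∈ 𝒜 := by
    intro i
    by_cases h : i = 0
    · simpa only [F, h, if_true] using h𝒜.empty_mem
    · simpa only [F, h, if_false] using hG𝒜 (J i)
  have hFδ : ∀ i, volume (U \ F i) ≤ δ i := by
    intro i
    by_cases h : i = 0
    · subst h
      simp only [F, if_true, sdiff_empty]
      exact hU0
    · simpa only [F, h, if_false] using hJ2 i
  have hFU : ∀ i, F i ⊆ U := by
    intro i
    by_cases h : i = 0
    · simp only [F, h, if_true]
      exact empty_subset _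
    · simp only [F, h, if_false]
      exact iUnion₂_subset fun i _ => hcU i
  refine ⟨fun i => F (i + 1) \ F i, fun i => h𝒜.sdiff_mem (hF𝒜 _) (hF𝒜 _), fun i =>
    (measure_mono (sdiff_subset_sdiff_left (hFU _))).trans (hFδ i), fun r hr => ?_⟩
  have hex : ∃ i, r ∈ F i := by
    obtain ⟨n, hn⟩ := hGU r hr
    refine ⟨n + 1, ?_⟩
    simp only [F, Nat.succ_ne_zero, if_false]
    exact hGmono ((Nat.le_succ n).trans (hJ1 (n + 1))) hn
  have h1 := Nat.find_spec hex
  have h2 := fun m => Nat.find_min hex (m := m)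
  rw [mem_iUnion]
  obtain ⟨k, hk⟩ : ∃ k, Nat.find hex = k + 1 := by
    refine Nat.exists_eq_succ_of_ne_zero fun h0 => ?_
    rw [h0] at h1
    simp [F] at h1
  rw [hk] at h1 h2
  exact ⟨k, h1, h2 k (Nat.lt_succ_self k)⟩

theorem exists_codes : ∃ E : ℕ → Set ℝ, E 0 = ∅ ∧ ∀ ε : ℕ → ℝ≥0∞, (∀ n, ε n ≠ 0) →
    (∀ n, ε n ≠ ∞) → ∀ N : Set ℝ, volume N = 0 → ∃ x : ℕ → ℕ, (∀ n, volume (E (x n)) ≤ ε n) ∧
      ∀ r ∈ N, ∀ m, ∃ n, m ≤ n ∧ r ∈ E (x n) := by
  classical
  let b : Set (Set ℝ) := TopologicalSpace.countableBasis ℝ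
  have hb : b.Countable := TopologicalSpace.countable_countableBasis ℝ
  have hb' : TopologicalSpace.IsTopologicalBasis b := TopologicalSpace.isBasis_countableBasis ℝ
  have hbne : b.Nonempty := by
    obtain ⟨v, hv, -⟩ := hb'.exists_subset_of_mem_open (mem_univ (0 : ℝ)) isOpen_univ
    exact ⟨v, hv⟩
  obtain ⟨e, he⟩ := hb.exists_eq_range hbne
  let 𝒜 : Set (Set ℝ) := generateSetAlgebra b
  have h𝒜 : IsSetAlgebra 𝒜 := isSetAlgebra_generateSetAlgebra
  have h𝒜c : 𝒜.Countable := countable_generateSetAlgebra hb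
  obtain ⟨E, hE⟩ := h𝒜c.exists_eq_range ⟨∅, h𝒜.empty_mem⟩
  have heb : ∀ n, e n ∈ b := fun n => by rw [he]; exact ⟨n, rfl⟩
  refine ⟨fun n => if n = 0 then ∅ else E (n - 1), by simp, fun ε hε hε' N hN => ?_⟩
  let δ : ℕ → ℕ → ℝ≥0∞ := fun n i => ε (n + i) / ((n + i : ℕ) + 1)
  have hδ : ∀ n i, δ n i ≠ 0 := fun n i => by
    simp only [δ]
    rw [ENNReal.div_ne_zero]
    exact ⟨hε _, by finiteness⟩
  have hδ' : ∀ n i, δ n i ≠ ∞ := fun n i => ENNReal.div_ne_top (hε' _) (by simp)
  have hU : ∀ n, ∃ U : Set ℝ, N ⊆ U ∧ IsOpen U ∧ volume U ≤ δ n 0 := by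
    intro n
    obtain ⟨U, hU1, hU2, hU3⟩ := N.exists_isOpen_le_add volume (hδ n 0)
    rw [hN, zero_add] at hU3
    exact ⟨U, hU1, hU2, hU3⟩
  choose U hU1 hU2 hU3 using hU
  have hD := fun n => exists_pieces h𝒜 (e := e) (fun n => self_subset_generateSetAlgebra (heb n))
    (fun n => hb'.isOpen (heb n)) (fun V hV r hr => by
      obtain ⟨v, hv, hrv, hvV⟩ := hb'.exists_subset_of_mem_open hr hV
      rw [he] at hv
      obtain ⟨n, rfl⟩ := hv
      exact ⟨n, hrv, hvV⟩) (hU2 n) (ne_top_of_le_ne_top (hδ' n 0) (hU3 n)) (δ n) (hδ n) (hU3 n)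
  choose D hD1 hD2 hD3 using hD
  have hC : ∀ m, ∃ k, E k = ⋃ n ∈ Finset.range (m + 1), D n (m - n) := by
    intro m
    have h1 : (⋃ n ∈ Finset.range (m + 1), D n (m - n)) ∈ 𝒜 :=
      h𝒜.biUnion_mem (Finset.range (m + 1)) fun n _ => hD1 n (m - n)
    rw [hE] at h1
    exact h1
  choose k hk using hC
  refine ⟨fun m => k m + 1, fun m => ?_, fun r hr m => ?_⟩
  · simp only [Nat.succ_ne_zero, if_false, Nat.add_sub_cancel, hk]
    refine (measure_biUnion_finset_le _ _).trans ?_
    have h1 : ∀ n ∈ Finset.range (m + 1), volume (D n (m - n)) ≤ ε m / ((m : ℕ) + 1) := by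
      intro n hn
      rw [Finset.mem_range] at hn
      have h2 := hD2 n (m - n)
      have h3 : n + (m - n) = m := by omega
      simp only [δ, h3] at h2
      exact h2
    refine (Finset.sum_le_sum h1).trans ?_
    rw [Finset.sum_const, Finset.card_range, nsmul_eq_mul]
    push_cast
    rw [ENNReal.mul_div_cancel (by simp) (by finiteness)]
  · obtain ⟨i, hi⟩ := mem_iUnion.1 (hD3 m (hU1 m hr))
    refine ⟨m + i, Nat.le_add_right _ _, ?_⟩
    simp only [Nat.succ_ne_zero, if_false, Nat.add_sub_cancel, hk]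
    refine mem_biUnion (x := m) (by simp) ?_
    rwa [Nat.add_sub_cancel_left]

/-! ### The additivity of the null ideal -/

/-- `BA_Lip(2^ω)` implies that the union of `ℵ₁` many null sets is null. -/
theorem null_of_BALip (hBA : BALip Bool) (N : W → Set ℝ) (hN : ∀ α, volume (N α) = 0) :
    volume (⋃ α, N α) = 0 := by
  classical
  by_contra hpos
  obtain ⟨E, hE0, hE⟩ := exists_codes
  let ε : ℕ → ℝ≥0∞ := fun n => ((2 : ℝ≥0∞) ^ (n + 1))⁻¹ * (2⁻¹) ^ n
  have hε2 : ∀ n, (2 : ℝ≥0∞) ^ (n + 1) * ε n = 2⁻¹ ^ n := by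
    intro n
    simp only [ε]
    rw [← mul_assoc, ENNReal.mul_inv_cancel (by simp) (by finiteness), one_mul]
  have hε : ∀ n, ε n ≠ 0 := by
    intro n h
    have := hε2 n
    rw [h, mul_zero] at this
    exact absurd this.symm (by simp)
  have hεle : ∀ n, ε n ≤ 2⁻¹ ^ n := by
    intro n
    rw [← hε2 n]
    exact le_mul_of_one_le_left' (one_le_pow_of_one_le' (by norm_num) _)
  have hε' : ∀ n, ε n ≠ ∞ := fun n => ne_top_of_le_ne_top (by finiteness) (hεle n)
  have hsum : ∑' n, (2⁻¹ : ℝ≥0∞) ^ n ≠ ∞ := by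
    rw [ENNReal.tsum_geometric]
    simp
  -- the codes
  have h1 : ∀ α : W, ∃ x : ℕ → ℕ, (∀ n, volume (E (x n)) ≤ ε n) ∧
      ∀ β, β ≤ α → ∀ r ∈ N β, ∀ m, ∃ n, m ≤ n ∧ r ∈ E (x n) := by
    intro α
    obtain ⟨x, hx, hx'⟩ := hE ε hε hε' (⋃ β ∈ Iic α, N β)
      ((measure_biUnion_null_iff (countable_Iic α)).2 fun β _ => hN β)
    exact ⟨x, hx, fun β hβ r hr => hx' r (mem_biUnion (x := β) hβ hr)⟩
  choose x₀ hx₀ hx₀' using h1
  obtain ⟨g, hg⟩ := bounded_of_BALip hBA x₀
  let x : W → ℕ → ℕ := fun α n => if x₀ α n ≤ g n then x₀ α n else 0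
  have hxg : ∀ α n, x α n ≤ g n := by
    intro α n
    by_cases h : x₀ α n ≤ g n
    · simpa only [x, h, if_true] using h
    · simp only [x, h, if_false]
      exact Nat.zero_le _
  have hxε : ∀ α n, volume (E (x α n)) ≤ ε n := by
    intro α n
    by_cases h : x₀ α n ≤ g n
    · simpa only [x, h, if_true] using hx₀ α n
    · simp only [x, h, if_false, hE0, measure_empty]
      exact zero_le
  have hxN : ∀ α β, β ≤ α → ∀ r ∈ N β, ∀ m, ∃ n, m ≤ n ∧ r ∈ E (x α n) := by
    intro α β hβ r hr m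
    obtain ⟨m', hm'⟩ := hg α
    obtain ⟨n, hn, hn'⟩ := hx₀' α β hβ r hr (max m m')
    refine ⟨n, (le_max_left _ _).trans hn, ?_⟩
    simpa only [x, hm' n ((le_max_right _ _).trans hn), if_true] using hn'
  -- the blocks
  let L : ℕ → ℕ := fun n => ∑ i ∈ Finset.range n, (g i + 1)
  have hL : ∀ n, L (n + 1) = L n + g n + 1 := by
    intro n
    simp only [L]
    rw [Finset.sum_range_succ]
    omega
  have hLmono : StrictMono L := strictMono_nat_of_lt_succ fun n => by rw [hL]; omega
  have hLuniq : ∀ n m k k', k ≤ g n → k' ≤ g m → L n + k = L m + k' → n = m ∧ k = k' := by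
    intro n m k k' hk hk' h
    rcases lt_trichotomy n m with hnm | hnm | hnm
    · have h2 : L (n + 1) ≤ L m := hLmono.monotone hnm
      rw [hL] at h2
      omega
    · subst hnm
      exact ⟨rfl, by omega⟩
    · have h2 : L (m + 1) ≤ L n := hLmono.monotone hnm
      rw [hL] at h2
      omega
  -- coding and decoding
  let y : W → ℕ → Bool := fun α i => decide (∃ n, i = L n + x α n)
  have hy : ∀ α n k, k ≤ g n → (y α (L n + k) = true ↔ k = x α n) := by
    intro α n k hk
    simp only [y, decide_eq_true_eq]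
    constructor
    · rintro ⟨m, hm⟩
      obtain ⟨rfl, h2⟩ := hLuniq n m k (x α m) hk (hxg α m) hm
      exact h2
    · rintro rfl
      exact ⟨n, rfl⟩
  let dec : (ℕ → Bool) → ℕ → ℕ := fun z n => sInf {k | z (L n + k) = true ∨ k = g n}
  have hdec : ∀ z n, (z (L n + dec z n) = true ∨ dec z n = g n) ∧ dec z n ≤ g n := by
    intro z n
    exact ⟨Nat.sInf_mem (s := {k | z (L n + k) = true ∨ k = g n}) ⟨g n, Or.inr rfl⟩,
      Nat.sInf_le (Or.inr rfl)⟩
  have hdec_le : ∀ z z' n, (∀ i < L (n + 1), z i = z' i) → dec z n ≤ dec z' n := by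
    intro z z' n h
    obtain ⟨h2, h3⟩ := hdec z' n
    refine Nat.sInf_le ?_
    rcases h2 with h2 | h2
    · left
      rw [h _ (by rw [hL]; omega)]
      exact h2
    · exact Or.inr h2
  have hdec_congr : ∀ z z' n, (∀ i < L (n + 1), z i = z' i) → dec z n = dec z' n := fun z z' n h =>
    le_antisymm (hdec_le z z' n h) (hdec_le z' z n fun i hi => (h i hi).symm)
  have hdec_code : ∀ z α n, (∀ i, L n ≤ i → z i = y α i) → dec z n = x α n := by
    intro z α n h
    obtain ⟨h2, h3⟩ := hdec z n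
    have h4 : dec z n ≤ x α n := by
      refine Nat.sInf_le ?_
      left
      rw [h _ (Nat.le_add_right _ _)]
      exact (hy α n (x α n) (hxg α n)).2 rfl
    rcases h2 with h2 | h2
    · rw [h _ (Nat.le_add_right _ _)] at h2
      exact (hy α n _ h3).1 h2
    · exact le_antisymm h4 (by rw [h2]; exact hxg α n)
  let C : (ℕ → Bool) → ℕ → Set ℝ := fun z n => {r | volume (E (dec z n)) ≤ ε n ∧ r ∈ E (dec z n)}
  have hC : ∀ z n, volume (C z n) ≤ ε n := by
    intro z n
    by_cases h : volume (E (dec z n)) ≤ ε n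
    · exact (measure_mono fun r hr => hr.2).trans h
    · have h2 : C z n = ∅ := by
        rw [eq_empty_iff_forall_notMem]
        exact fun r hr => h hr.1
      rw [h2, measure_empty]
      exact zero_le
  have hC_congr : ∀ z z' n, (∀ i < L (n + 1), z i = z' i) → C z n = C z' n := by
    intro z z' n h
    simp only [C, hdec_congr z z' n h]
  have hBC : ∀ G : ℕ → Set ℝ, (∀ n, volume (G n) ≤ 2⁻¹ ^ n) →
      volume {r | ∀ m, ∃ n, m ≤ n ∧ r ∈ G n} = 0 := by
    intro G hG
    have h2 := measure_limsup_atTop_eq_zero (μ := (volume : Measure ℝ)) (s := G)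
      (ne_top_of_le_ne_top hsum (ENNReal.tsum_le_tsum hG))
    refine measure_mono_null (fun r hr => ?_) h2
    rw [mem_limsup_iff_frequently_mem, frequently_atTop]
    exact fun m => hr m
  let M : (ℕ → Bool) → Set ℝ := fun z => {r | ∀ m, ∃ n, m ≤ n ∧ r ∈ C z n}
  have hM : ∀ z, volume (M z) = 0 := fun z => hBC (C z) fun n => (hC z n).trans (hεle n)
  have hNM : ∀ α β, β ≤ α → ∀ z, TailEq z (y α) → N β ⊆ M z := by
    rintro α β hβ z ⟨c, hc⟩ r hr m
    obtain ⟨n, hn, hn'⟩ := hxN α β hβ r hr (max m c)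
    refine ⟨n, (le_max_left _ _).trans hn, ?_⟩
    have h2 : dec z n = x α n := hdec_code z α n fun i hi => hc i
      (((le_max_right _ _).trans hn).trans ((hLmono.id_le n).trans hi))
    simp only [C, h2]
    exact ⟨hxε α n, hn'⟩
  -- the set `B`
  have hyc : ¬ (sat y).Countable := by
    intro hc
    apply hpos
    refine measure_mono_null ?_ ((measure_biUnion_null_iff hc).2 fun z _ => hM z)
    refine iUnion_subset fun α => ?_
    exact (hNM α α le_rfl (y α) (TailEq.refl _)).trans
      (subset_biUnion_of_mem (u := fun z => M z) (mem_sat y α))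
  have hB : AlephOneDense (sat y) := dense_of_closed (mk_sat_le y mk_W.le) hyc (sat_closed y)
  -- the set `A`
  obtain ⟨ρ, hρ⟩ : ∃ ρ : W → ℕ → Bool, Function.Injective ρ := by
    have h2 : #W ≤ #(ℕ → Bool) := by
      rw [mk_W]
      simpa using aleph_one_le_continuum
    obtain ⟨ρ⟩ := h2
    exact ⟨ρ, ρ.injective⟩
  let t : (ℕ → Bool) → ℕ → Bool := fun r i => decide (∃ j, i = L j ∧ r j = true)
  have ht : ∀ r j, t r (L j) = r j := by
    intro r j
    rw [Bool.eq_iff_iff]
    simp only [t, decide_eq_true_eq]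
    constructor
    · rintro ⟨k, hk, hk'⟩
      rwa [hLmono.injective hk]
    · exact fun h => ⟨j, rfl, h⟩
  have ht' : ∀ r i, (∀ j, i ≠ L j) → t r i = false := by
    intro r i h
    simp only [t, decide_eq_false_iff_not]
    rintro ⟨j, hj, -⟩
    exact h j hj
  let z : W → ℕ → Bool := fun α => t (ρ α)
  have hz : Function.Injective z := by
    intro α β h
    apply hρ
    funext j
    have := congrFun h (L j)
    simp only [z, ht] at this
    exact this
  have hAc : ¬ (sat z).Countable := by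
    rw [not_countable_iff, ← mk_W]
    exact mk_le_of_injective (f := fun α : W => (⟨z α, mem_sat z α⟩ : sat z)) fun α β h =>
      hz (congrArg Subtype.val h)
  have hA : AlephOneDense (sat z) := dense_of_closed (mk_sat_le z mk_W.le) hAc (sat_closed z)
  obtain ⟨f, hf1, hf2, hf3⟩ := hBA _ _ hA hB
  -- the stems
  let T : List Bool → Set (ℕ → Bool) := fun u =>
    {a | (∀ i, ∀ h : i < u.length, a i = u[i]) ∧ ∀ i, u.length ≤ i → (∀ j, i ≠ L j) → a i = false}
  have hT : ∀ a ∈ sat z, ∃ u, a ∈ T u := by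
    rintro a ⟨α, m, hm⟩
    refine ⟨(List.range m).map a, fun i hi => by simp, fun i hi hj => ?_⟩
    rw [List.length_map, List.length_range] at hi
    rw [hm i hi]
    exact ht' _ _ hj
  obtain ⟨u, hu⟩ : ∃ u, ¬ (f '' (sat z ∩ T u)).Countable := by
    by_contra hcon
    push Not at hcon
    have h2 : f '' sat z ⊆ ⋃ u, f '' (sat z ∩ T u) := by
      rintro _ ⟨a, ha, rfl⟩
      obtain ⟨u, hu⟩ := hT a ha
      exact mem_iUnion.2 ⟨u, a, ⟨ha, hu⟩, rfl⟩
    exact hAc (countable_of_injective_of_countable_image hf2 ((countable_iUnion hcon).mono h2))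
  have hunb := unbounded_of_uncountable y (f '' (sat z ∩ T u))
    ((image_mono inter_subset_left).trans hf3) hu
  -- the covering null set
  let G : ℕ → Set ℝ := fun n => ⋃ a ∈ T u, C (f a) n
  have hG : ∀ n, volume (G n) ≤ 2⁻¹ ^ n := by
    intro n
    let pt : (Fin (n + 1) → Bool) → ℕ → Bool := fun σ i =>
      if h : i < u.length then u[i] else decide (∃ j : Fin (n + 1), i = L j ∧ σ j = true)
    have h2 : G n ⊆ ⋃ σ, C (f (pt σ)) n := by
      refine iUnion₂_subset fun a ha => ?_
      refine subset_iUnion_of_subset (fun j => a (L j)) ?_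
      rw [hC_congr (f a) (f (pt fun j => a (L j))) n]
      refine hf1 (L (n + 1)) _ _ fun i hi => ?_
      by_cases h : i < u.length
      · simp only [pt, h, dif_pos]
        exact ha.1 i h
      · simp only [pt, h, dif_neg, not_false_iff]
        by_cases hj : ∃ j, i = L j
        · obtain ⟨j, rfl⟩ := hj
          have h3 : j < n + 1 := hLmono.lt_iff_lt.1 hi
          rw [Bool.eq_iff_iff, decide_eq_true_eq]
          constructor
          · exact fun h4 => ⟨⟨j, h3⟩, rfl, h4⟩
          · rintro ⟨k, hk, hk'⟩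
            rw [hk]
            exact hk'
        · push Not at hj
          rw [ha.2 i (not_lt.1 h) hj, eq_comm, decide_eq_false_iff_not]
          rintro ⟨j, hj', -⟩
          exact hj j hj'
    refine (measure_mono h2).trans ((measure_iUnion_fintype_le _ _).trans ?_)
    refine (Finset.sum_le_sum fun σ _ => hC _ _).trans ?_
    rw [Finset.sum_const, Finset.card_univ, Fintype.card_fun, Fintype.card_bool, Fintype.card_fin,
      nsmul_eq_mul]
    push_cast
    exact (hε2 n).le
  apply hpos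
  refine measure_mono_null ?_ (hBC G hG)
  refine iUnion_subset fun γ => ?_
  obtain ⟨β, hβ, s, ⟨a, ⟨-, ha⟩, rfl⟩, hs⟩ := hunb γ
  intro r hr m
  obtain ⟨n, hn, hn'⟩ := hNM β γ hβ (f a) hs hr m
  exact ⟨n, hn, mem_biUnion ha hn'⟩

theorem addN_gt (hBA : BALip Bool) : ℵ₁ < addN := by
  have hne : {κ : Cardinal.{0} | ∃ F : Set (Set ℝ), #F = κ ∧ (∀ N ∈ F, volume N = 0) ∧
      volume (⋃₀ F) ≠ 0}.Nonempty := by
    refine ⟨_, range fun r : ℝ => ({r} : Set ℝ), rfl, ?_, ?_⟩
    · rintro _ ⟨r, rfl⟩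
      exact Real.volume_singleton
    · have h1 : ⋃₀ (range fun r : ℝ => ({r} : Set ℝ)) = Set.univ := by
        rw [sUnion_range, iUnion_singleton_eq_range]
        exact range_id
      rw [h1, Real.volume_univ]
      exact ENNReal.top_ne_zero
  obtain ⟨F, hF1, hF2, hF3⟩ := csInf_mem hne
  by_contra hcon
  rw [not_lt] at hcon
  have h1 : #F ≤ #W := by
    rw [mk_W, hF1]
    exact hcon
  have hFne : F.Nonempty := by
    rw [nonempty_iff_ne_empty]
    rintro rfl
    simp at hF3
  obtain ⟨⟨φ, hφ⟩⟩ := h1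
  have : Nonempty F := hFne.to_subtype
  have h2 := null_of_BALip hBA (fun α => (Function.invFun φ α).1) fun α => hF2 _ (Subtype.coe_prop _)
  apply hF3
  refine measure_mono_null ?_ h2
  intro r hr
  obtain ⟨N, hN, hrN⟩ := hr
  rw [mem_iUnion]
  refine ⟨φ ⟨N, hN⟩, ?_⟩
  rw [Function.leftInverse_invFun hφ ⟨N, hN⟩]
  exact hrN

/-- Both `BA_Lip(ω^ω)` and `BA_Lip(2^ω)` imply `add(N) > ℵ₁`. -/
theorem result : (BALip ℕ → ℵ₁ < addN) ∧ (BALip Bool → ℵ₁ < addN) :=
  ⟨fun h => addN_gt (BALip_bool h), addN_gt⟩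

end Pool.Agent.Results.MP_84ba36_lc.LipNullAdditivity
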